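import Pool.Agent.H579.R.Dsp6R
import Pool.Agent.H579.R.Reg
import Pool.Graph.R_seed8.Y877.SxP

/-!
# `M - q` and `p_{q + 2} + h` prime, for almost all pairs `(M, h)` in the residue classes of moduli up to `x ^ (2 / 3 - ρ)`

Q1 asks, for every even number `2 n > 4`, for a prime `q` such that `2 n - q` and `p_{q + 2} + 2` are both prime. The pair
`(2 n, 2)` is replaced here by almost all pairs `(M, h)`, `x + 1 < M ≤ 2 x + 1`, `h ≤ x`, taken from arbitrary residue
classes `M ≡ r_0 (mod q_0)`, `h ≡ r_1 (mod q_1)`, where the moduli `q_0`, `q_1` may be as large as `x ^ (2 / 3 - ρ)`; then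
there are only `x ^ (1 / 3 + ρ)` possible values for each of `M` and `h`. Let `QQ x` be the set of the primes `q` with
`p_{q + 2} ≤ x`. If the moduli are divisible by all primes `≤ w` then

(1) for EVERY set `S` of elements of `QQ x` and all residue classes, the number of the `q ∈ S` for which `M - q` and
`p_{q + 2} + h` are both prime is

  `q_0 / φ(q_0) * q_1 / φ(q_1) * #{q ∈ S : (r_0 - q, q_0) = 1, (p_{q + 2} + r_1, q_1) = 1} / log ^ 2 x`

with an error of at most `η * q_0 / φ(q_0) * q_1 / φ(q_1) * (#S + x / log ^ A x) / log ^ 2 x`, for all pairs `(M, h)` in the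
two classes with the exception of at most `C log log x / (η ^ 2 w)` times their expected number;

(2) for the multiples `M` of `q_0` and `h` of `q_1` (with as few exceptions) the number of the primes `q` with
`p_{q + 2} ≤ x` for which `M - q` and `p_{q + 2} + h` are both prime is `q_0 / φ(q_0) * q_1 / φ(q_1) * #QQ x / log ^ 2 x` up to
a factor `1 + θ η`, `|θ| ≤ 1`, and `#QQ x ≥ x / (16 log ^ 2 x)`.

The moduli have to be regular: not divisible by a member of a set `D` (depending on `x`) of at most `log ^ c x`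
integers, the RADICALS of which are larger than any given power of `log x`. There is NO condition on moduli with a
radical `≤ log ^ B x`, for instance on the powers `≤ x ^ (2 / 3 - ρ)` of the product of the primes up to `K log log x`.
Proof: `Pool.Agent.H579.G.Dsp1` to `Dsp6`, `Pool.Agent.H579.R` (mean squares over the characters for the difference
between the primes and the sieve model, along arbitrary sequences, and the mean square of the sieve model in classes;
Postnikov's formula and Vinogradov's method for the conductors with a small radical, `H567/PP`);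
the lower bound for the number of the primes with prime index is `PPi_low` of the library.
-/

set_option autoImplicit false

open Finset

namespace Pool.Agent.Results.MP_0ec542_nt.EvensAndShiftsLargeModuli

/-- the radical of `d`: the product of the primes dividing `d` -/
def rad (d : ℕ) : ℕ := ∏ l ∈ d.primeFactors, l

/-- The `k`-th prime: `p 1 = 2`, `p 2 = 3`. -/
noncomputable def p (k : ℕ) : ℕ := Nat.nth Nat.Prime (k - 1)

open Classical in
/-- the primes `q` with `p_{q + 2} ≤ x` -/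
noncomputable def QQ (x : ℕ) : Finset ℕ := (Icc 1 x).filter (fun q => q.Prime ∧ p (q + 2) ≤ x)

open Classical in
/-- The `q ∈ S` for which `M - q` and `p_{q + 2} + h` are both prime. -/
noncomputable def good (S : Finset ℕ) (M h : ℕ) : Finset ℕ :=
  S.filter (fun q => (M - q).Prime ∧ (p (q + 2) + h).Prime)

open Classical in
/-- The `s ∈ S` for which `r_0 - s` is prime to `q_0` and `p_{s + 2} + r_1` is prime to `q_1`. -/
noncomputable def loc (S : Finset ℕ) (q r : Fin 2 → ℕ) : Finset ℕ :=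
  S.filter (fun s => Int.gcd ((r 0 : ℤ) - s) (q 0) = 1 ∧ (p (s + 2) + r 1).Coprime (q 1))

/-- `q_0 / φ(q_0) * q_1 / φ(q_1)` -/
noncomputable def dens (q : Fin 2 → ℕ) : ℝ := (q 0 : ℝ) / Nat.totient (q 0) * ((q 1 : ℝ) / Nat.totient (q 1))

open Classical in
/-- The pairs `(M, h)` with `x + 1 < M ≤ 2 x + 1`, `1 ≤ h ≤ x`, `M ≡ r_0 (mod q_0)`, `h ≡ r_1 (mod q_1)`, for which the number
of the `q ∈ S` with `M - q` and `p_{q + 2} + h` prime differs from `T` by more than `E`. -/
noncomputable def exceptional (T E : ℝ) (x : ℕ) (S : Finset ℕ) (q r : Fin 2 → ℕ) : Finset (ℕ × ℕ) :=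
  (Icc (x + 2) (2 * x + 1) ×ˢ Icc 1 x).filter (fun g => g.1 ≡ r 0 [MOD q 0] ∧ g.2 ≡ r 1 [MOD q 1] ∧
    E < |((good S g.1 g.2).card : ℝ) - T|)

open Pool.Agent.H579.G

theorem nth_inj : Function.Injective (Nat.nth Nat.Prime) := Nat.nth_injective Nat.infinite_setOfPred_prime

/-- the two sequences -/
noncomputable def F (x : ℕ) : Fin 2 → ℕ → ℕ := ![fun s => x + 1 - s, fun s => p (s + 2)]

/-- the classes of the shifts -/
def cl (x : ℕ) (q r : Fin 2 → ℕ) : Fin 2 → ℕ := ![r 0 + (q 0 - 1) * (x + 1), r 1]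

lemma den_eq (q : Fin 2 → ℕ) : den q = dens q := by
  unfold den dens
  rw [Fin.prod_univ_two]

lemma cop0 {x q r s : ℕ} (hq : 1 ≤ q) (hs : s ≤ x) :
    (x + 1 - s + (r + (q - 1) * (x + 1))).Coprime q ↔ Int.gcd ((r : ℤ) - s) q = 1 := by
  have e2 : x + 1 - s + (r + (q - 1) * (x + 1)) + s = r + q * (x + 1) := by
    obtain ⟨m, hm⟩ : ∃ m, q = m + 1 := ⟨q - 1, by omega⟩
    rw [hm]
    simp only [Nat.add_sub_cancel]
    have : x + 1 - s + (r + m * (x + 1)) + s = (x + 1 - s + s) + (r + m * (x + 1)) := by ring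
    rw [this, Nat.sub_add_cancel (by omega)]
    ring
  have e3 : ((x + 1 - s + (r + (q - 1) * (x + 1)) : ℕ) : ℤ) = ((r : ℤ) - s) + q * (x + 1) := by
    have e4 : ((x + 1 - s + (r + (q - 1) * (x + 1)) + s : ℕ) : ℤ) = ((r + q * (x + 1) : ℕ) : ℤ) := by rw [e2]
    rw [Nat.cast_add] at e4
    have e5 : ((r + q * (x + 1) : ℕ) : ℤ) = r + q * (x + 1) := by push_cast; ring
    rw [e5] at e4
    linarith
  rw [Nat.coprime_iff_gcd_eq_one, ← Int.gcd_natCast_natCast, e3, Int.gcd_add_mul_left_left]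

lemma mod0 {x q r M : ℕ} (hq : 1 ≤ q) (hM : x + 2 ≤ M) (h : M ≡ r [MOD q]) :
    M - (x + 1) ≡ r + (q - 1) * (x + 1) [MOD q] := by
  apply Nat.ModEq.add_right_cancel' (x + 1)
  have e1 : M - (x + 1) + (x + 1) = M := by omega
  have e2 : r + (q - 1) * (x + 1) + (x + 1) = r + q * (x + 1) := by
    obtain ⟨m, hm⟩ : ∃ m, q = m + 1 := ⟨q - 1, by omega⟩
    rw [hm]
    simp only [Nat.add_sub_cancel]
    ring
  rw [e1, e2]
  refine h.trans ?_
  have : r + q * (x + 1) ≡ r + 0 [MOD q] := (Nat.ModEq.refl _).add (by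
    rw [Nat.modEq_zero_iff_dvd]
    exact dvd_mul_right _ _)
  rw [add_zero] at this
  exact this.symm

lemma QQ_mem {x s : ℕ} (h : s ∈ QQ x) : s.Prime ∧ 1 ≤ s ∧ s ≤ x ∧ p (s + 2) ≤ x := by
  classical
  unfold QQ at h
  rw [mem_filter, mem_Icc] at h
  exact ⟨h.2.1, h.1.1, h.1.2, h.2.2⟩

/-- the exceptional pairs as exceptional pairs of shifts -/
lemma exc_le {x : ℕ} {q r : Fin 2 → ℕ} (hq : ∀ i, 1 ≤ q i) {S : Finset ℕ} (hS : S ⊆ QQ x) (η Y : ℝ) :
    (exceptional (dens q * ((loc S q r).card / Real.log x ^ 2)) (η * dens q * (Y / Real.log x ^ 2)) x S q r).card ≤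
      (excN η Y x S (F x) q (cl x q r)).card := by
  classical
  refine card_le_card_of_injOn (fun g => ![g.1 - (x + 1), g.2]) (fun g hg => ?_) (fun g hg g' hg' e => ?_)
  · rw [mem_coe] at hg
    unfold exceptional at hg
    rw [mem_filter, mem_product, mem_Icc, mem_Icc] at hg
    obtain ⟨⟨⟨e1, e2⟩, e3, e4⟩, e5, e6, e7⟩ := hg
    rw [mem_coe]
    unfold excN
    rw [mem_filter, Fintype.mem_piFinset]
    refine ⟨?_, ?_, ?_⟩
    · rw [Fin.forall_fin_two]
      exact ⟨mem_Icc.2 ⟨by show 1 ≤ g.1 - (x + 1); omega, by show g.1 - (x + 1) ≤ x; omega⟩, mem_Icc.2 ⟨e3, e4⟩⟩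
    · rw [Fin.forall_fin_two]
      exact ⟨mod0 (hq 0) e1 e5, e6⟩
    have f1 : prN S (F x) ![g.1 - (x + 1), g.2] = good S g.1 g.2 := by
      unfold prN good
      refine filter_congr fun s hs => ?_
      obtain ⟨-, k1, k2, -⟩ := QQ_mem (hS hs)
      rw [Fin.forall_fin_two]
      have e8 : F x 0 s + (![g.1 - (x + 1), g.2] : Fin 2 → ℕ) 0 = g.1 - s := by
        show x + 1 - s + (g.1 - (x + 1)) = g.1 - s
        omega
      rw [e8]
      rfl
    have f2 : cpN S (F x) q (cl x q r) = loc S q r := by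
      unfold cpN loc
      refine filter_congr fun s hs => ?_
      obtain ⟨-, k1, k2, -⟩ := QQ_mem (hS hs)
      rw [Fin.forall_fin_two]
      have e8 : (F x 0 s + cl x q r 0).Coprime (q 0) ↔ Int.gcd ((r 0 : ℤ) - s) (q 0) = 1 := cop0 (hq 0) k2
      rw [e8]
      rfl
    rw [f1, f2, den_eq]
    exact e7
  · rw [mem_coe] at hg hg'
    unfold exceptional at hg hg'
    rw [mem_filter, mem_product, mem_Icc] at hg hg'
    have e1 : g.1 - (x + 1) = g'.1 - (x + 1) := congrFun e 0
    have e2 : g.2 = g'.2 := congrFun e 1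
    exact Prod.ext (by omega) e2

/-- the trivial bound -/
lemma exc_triv {x : ℕ} {q r : Fin 2 → ℕ} (hq : ∀ i, 1 ≤ q i ∧ q i ≤ x) (T E : ℝ) (S : Finset ℕ) :
    ((exceptional T E x S q r).card : ℝ) ≤ 2 ^ 2 * ∏ i, ((x : ℝ) / q i) := by
  classical
  have h1 := box_nat hq (a := cl x q r) (T := (exceptional T E x S q r).image (fun g => ![g.1 - (x + 1), g.2])) (by
    intro h hh
    obtain ⟨g, hg, rfl⟩ := mem_image.1 hh
    unfold exceptional at hg
    rw [mem_filter, mem_product, mem_Icc, mem_Icc] at hg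
    obtain ⟨⟨⟨e1, e2⟩, e3, e4⟩, e5, e6, e7⟩ := hg
    rw [Fin.forall_fin_two]
    refine ⟨⟨?_, ?_, mod0 (hq 0).1 e1 e5⟩, ⟨e3, e4, e6⟩⟩
    · show 1 ≤ g.1 - (x + 1)
      omega
    · show g.1 - (x + 1) ≤ x
      omega)
  rw [card_image_of_injOn] at h1
  · exact h1
  · intro g hg g' hg' e
    rw [mem_coe] at hg hg'
    unfold exceptional at hg hg'
    rw [mem_filter, mem_product, mem_Icc] at hg hg'
    have e1 : g.1 - (x + 1) = g'.1 - (x + 1) := congrFun e 0
    have e2 : g.2 = g'.2 := congrFun e 1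
    exact Prod.ext (by omega) e2

/-- few elements of `QQ x` are not prime to the moduli -/
lemma loc_zero {x : ℕ} (q : Fin 2 → ℕ) (hq : ∀ i, 1 ≤ q i ∧ q i ≤ x) :
    ((QQ x).card : ℝ) - 4 * Real.log x ≤ (loc (QQ x) q 0).card := by
  classical
  have h1 : (QQ x) \ (loc (QQ x) q 0) ⊆ (q 0).primeFactors ∪
      (QQ x).filter (fun s => p (s + 2) ∈ (q 1).primeFactors) := by
    intro s hs
    rw [mem_sdiff] at hs
    obtain ⟨hs1, hs2⟩ := hs
    have hsp : s.Prime := (QQ_mem hs1).1
    unfold loc at hs2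
    rw [mem_filter, not_and] at hs2
    have h3 := hs2 hs1
    rw [mem_union, mem_filter]
    by_cases h4 : s ∣ q 0
    · left
      rw [Nat.mem_primeFactors]
      exact ⟨hsp, h4, by have := (hq 0).1; omega⟩
    right
    refine ⟨hs1, ?_⟩
    rw [Nat.mem_primeFactors]
    refine ⟨Nat.prime_nth_prime _, ?_, by have := (hq 1).1; omega⟩
    by_contra h5
    refine h3 ⟨?_, ?_⟩
    · have h6 : Int.gcd (((0 : Fin 2 → ℕ) 0 : ℤ) - s) (q 0) = Nat.gcd s (q 0) := by
        simp only [Pi.zero_apply, Nat.cast_zero, zero_sub, Int.neg_gcd, Int.gcd_natCast_natCast]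
      rw [h6]
      exact (Nat.Prime.coprime_iff_not_dvd hsp).2 h4
    · rw [Pi.zero_apply, add_zero]
      exact (Nat.Prime.coprime_iff_not_dvd (Nat.prime_nth_prime _)).2 h5
  have h2 : (((QQ x).filter (fun s => p (s + 2) ∈ (q 1).primeFactors)).card) ≤ (q 1).primeFactors.card := by
    refine card_le_card_of_injOn (fun s => p (s + 2)) (fun s hs => ?_) (fun s _ t _ e => ?_)
    · rw [mem_coe, mem_filter] at hs
      exact hs.2
    · have := nth_inj e
      omega
  have hom : ∀ i, ((q i).primeFactors.card : ℝ) ≤ 2 * Real.log x := fun i => by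
    refine (omega_le (hq i).1).trans ?_
    have : Real.log (q i) ≤ Real.log x :=
      Real.log_le_log (by exact_mod_cast (hq i).1) (by exact_mod_cast (hq i).2)
    linarith
  have h3 : (((QQ x) \ (loc (QQ x) q 0)).card : ℝ) ≤ 4 * Real.log x := by
    have h4 := (card_le_card h1).trans (card_union_le _ _)
    have h5 : (((QQ x) \ (loc (QQ x) q 0)).card : ℝ) ≤ (q 0).primeFactors.card + (q 1).primeFactors.card := by
      exact_mod_cast h4.trans (Nat.add_le_add_left h2 _)
    have := hom 0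
    have := hom 1
    linarith
  have h4 : (QQ x).card = (loc (QQ x) q 0).card + ((QQ x) \ (loc (QQ x) q 0)).card := by
    have h5 : loc (QQ x) q 0 ⊆ QQ x := by
      unfold loc
      exact filter_subset _ _
    have := card_sdiff_add_card_eq_card h5
    omega
  have h5 : ((QQ x).card : ℝ) = (loc (QQ x) q 0).card + ((QQ x) \ (loc (QQ x) q 0)).card := by exact_mod_cast h4
  linarith

/-- comparison with the primes with prime index -/
lemma QQ_low (x : ℕ) :
    ((Icc 1 x).filter (fun l => l.Prime ∧ (Nat.primeCounting l).Prime)).card ≤ (QQ x).card + 2 := by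
  classical
  obtain ⟨c, hc⟩ : ∃ c, c = Nat.count Nat.Prime (x + 1) := ⟨_, rfl⟩
  have hcount : ∀ l : ℕ, l.Prime → Nat.primeCounting l = Nat.count Nat.Prime l + 1 := by
    intro l hl
    unfold Nat.primeCounting Nat.primeCounting'
    rw [Nat.count_succ, if_pos hl]
  have hinj : Set.InjOn Nat.primeCounting ((Icc 1 x).filter (fun l => l.Prime ∧ (Nat.primeCounting l).Prime) : Finset ℕ) := by
    intro a ha b hb e
    rw [mem_coe, mem_filter] at ha hb
    rw [hcount a ha.2.1, hcount b hb.2.1] at e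
    have e1 : Nat.count Nat.Prime a = Nat.count Nat.Prime b := by omega
    rw [← Nat.nth_count ha.2.1, ← Nat.nth_count hb.2.1, e1]
  rw [← card_image_of_injOn hinj]
  have hsub : ((Icc 1 x).filter (fun l => l.Prime ∧ (Nat.primeCounting l).Prime)).image Nat.primeCounting ⊆
      QQ x ∪ {c - 1, c} := by
    intro s hs
    obtain ⟨l, hl, rfl⟩ := mem_image.1 hs
    rw [mem_filter, mem_Icc] at hl
    obtain ⟨⟨hl1, hl2⟩, hl3, hl4⟩ := hl
    have k1 := hcount l hl3
    have k2 : Nat.count Nat.Prime l < c := by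
      rw [hc, Nat.lt_nth_iff_count_lt Nat.infinite_setOfPred_prime, Nat.nth_count hl3]
      omega
    rw [mem_union, mem_insert, mem_singleton]
    by_cases k3 : Nat.primeCounting l + 1 < c
    · left
      have k4 : Nat.nth Nat.Prime (Nat.primeCounting l + 1) < x + 1 := by
        rw [← Nat.lt_nth_iff_count_lt Nat.infinite_setOfPred_prime, ← hc]
        exact k3
      have k5 := Nat.add_two_le_nth_prime (Nat.primeCounting l + 1)
      unfold QQ
      rw [mem_filter, mem_Icc]
      refine ⟨⟨hl4.one_le, by omega⟩, hl4, ?_⟩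
      show Nat.nth Nat.Prime (Nat.primeCounting l + 2 - 1) ≤ x
      have : Nat.primeCounting l + 2 - 1 = Nat.primeCounting l + 1 := by omega
      rw [this]
      omega
    · right
      omega
  refine (card_le_card hsub).trans ((card_union_le _ _).trans ?_)
  exact Nat.add_le_add_left card_le_two _

/-- **All regular moduli: every set of primes in all classes; multiples, with a relative error.** -/
theorem result (A : ℕ) : ∃ C : ℝ, ∀ ρ : ℝ, 0 < ρ → ∃ c : ℕ, ∀ B : ℕ, ∃ x₀ : ℕ, ∀ x : ℕ, x₀ ≤ x →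
    (x : ℝ) / (16 * Real.log x ^ 2) ≤ (QQ x).card ∧
    ∃ D : Finset ℕ, (D.card : ℝ) ≤ Real.log x ^ c ∧ (∀ d ∈ D, Real.log x ^ B < (rad d : ℝ)) ∧
      ∀ q : Fin 2 → ℕ, (∀ i, 1 ≤ q i ∧ (q i : ℝ) ≤ (x : ℝ) ^ (2 / 3 - ρ) ∧
        ((rad (q i) : ℝ) ≤ Real.log x ^ B ∨ ∀ d ∈ D, ¬ d ∣ q i)) →
      ∀ w : ℕ, 1 ≤ w → (w : ℝ) ≤ Real.log x → (∀ l : ℕ, l.Prime → l ≤ w → ∀ i, l ∣ q i) →
      -- (1) arbitrary sets of primes, arbitrary classes
      (∀ r : Fin 2 → ℕ, ∀ S ⊆ QQ x, ∀ η : ℝ, 0 < η → η ≤ 1 →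
        ((exceptional (dens q * ((loc S q r).card / Real.log x ^ 2))
            (η * dens q * ((S.card + x / Real.log x ^ A) / Real.log x ^ 2)) x S q r).card : ℝ) ≤
          C * Real.log (Real.log x) / (η ^ 2 * w) * ((x : ℝ) / q 0 * ((x : ℝ) / q 1))) ∧
      -- (2) all the primes, multiples of the moduli
      ∀ η : ℝ, 0 < η → η ≤ 1 →
        ((exceptional (dens q * ((QQ x).card / Real.log x ^ 2))
            (η * (dens q * ((QQ x).card / Real.log x ^ 2))) x (QQ x) q 0).card : ℝ) ≤
          C * Real.log (Real.log x) / (η ^ 2 * w) * ((x : ℝ) / q 0 * ((x : ℝ) / q 1)) := by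
  classical
  obtain ⟨C, hC, h1⟩ := Pool.Agent.H579.R.sparse_natR 2 (A + 3) (by norm_num)
  refine ⟨16 * C, fun ρ hρ => ?_⟩
  obtain ⟨c, h2⟩ := h1 ρ hρ
  refine ⟨c, fun B => ?_⟩
  obtain ⟨n1, h3⟩ := h2 B
  obtain ⟨n2, h4⟩ := Pool.Agent.Y877.SX.PPi_low
  obtain ⟨n3, h5⟩ := Filter.eventually_atTop.1 (Pool.Agent.Y614.GJ.Core.ev_log 1 (s := 1) (by norm_num) (16 : ℝ))
  obtain ⟨n4, h6⟩ := Pool.Agent.H373R2.T7.ev_log' 4 128
  refine ⟨n1 + n2 + n3 + n4 + 3, fun x hx => ?_⟩
  have hL16 : 16 ≤ Real.log x := (h5 x (by omega)).1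
  have hx0 : (0 : ℝ) < x := by exact_mod_cast (by omega : 0 < x)
  have hx1 : (1 : ℝ) ≤ x := by exact_mod_cast (by omega : 1 ≤ x)
  have hL0 : 0 < Real.log x := by linarith
  have hpow : 128 * Real.log x ^ 4 ≤ x := by
    have := h6 x (by omega)
    refine le_trans ?_ (this.trans ?_)
    · exact le_rfl
    · rw [Real.sqrt_le_left (by linarith)]
      nlinarith
  have hlow : (x : ℝ) / (16 * Real.log x ^ 2) ≤ (QQ x).card := by
    have e1 : (x : ℝ) / (8 * Real.log x ^ 2) ≤
        ((Icc 1 x).filter (fun l => l.Prime ∧ (Nat.primeCounting l).Prime)).card := h4 x (by omega)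
    have e2 : ((((Icc 1 x).filter (fun l => l.Prime ∧ (Nat.primeCounting l).Prime)).card : ℕ) : ℝ) ≤ (QQ x).card + 2 := by
      exact_mod_cast QQ_low x
    have e3 : (x : ℝ) / (8 * Real.log x ^ 2) = x / (16 * Real.log x ^ 2) + x / (16 * Real.log x ^ 2) := by
      field_simp
      ring
    have e4 : (2 : ℝ) ≤ x / (16 * Real.log x ^ 2) := by
      rw [le_div_iff₀ (by positivity)]
      have : Real.log x ^ 2 ≤ Real.log x ^ 4 := pow_le_pow_right₀ (by linarith) (by norm_num)
      nlinarith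
    linarith
  refine ⟨hlow, ?_⟩
  obtain ⟨D, hD1, hD2, hD3⟩ := h3 x (by omega)
  obtain ⟨l, hl⟩ : ∃ l, l = Real.log (Real.log x) := ⟨_, rfl⟩
  have hl1 : 1 ≤ l := by
    rw [hl]
    have h7 : Real.exp 1 ≤ Real.log x := by
      have := Real.exp_one_lt_d9
      linarith
    have := Real.log_le_log (Real.exp_pos 1) h7
    rwa [Real.log_exp] at this
  refine ⟨D, hD1, hD2, fun q hq' w hw1 hwL hwq => ?_⟩
  have hq := fun i => (⟨(hq' i).1, (hq' i).2.1, Pool.Agent.H579.R.reg_of_rad (hq' i).1 hD2 (hq' i).2.2⟩ :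
    1 ≤ q i ∧ (q i : ℝ) ≤ (x : ℝ) ^ (2 / 3 - ρ) ∧ ∀ d ∈ D, ¬ d ∣ q i)
  have hw0 : (0 : ℝ) < w := by exact_mod_cast hw1
  have hq0 : ∀ i, (0 : ℝ) < q i := fun i => by exact_mod_cast (hq i).1
  have hqx : ∀ i, q i ≤ x := fun i => by
    have e1 : (q i : ℝ) ≤ x := by
      refine (hq i).2.1.trans ?_
      calc (x : ℝ) ^ (2 / 3 - ρ) ≤ (x : ℝ) ^ (1 : ℝ) := Real.rpow_le_rpow_of_exponent_le hx1 (by linarith)
        _ = x := Real.rpow_one _
    exact_mod_cast e1
  have hPi : ∏ i, ((x : ℝ) / q i) = (x : ℝ) / q 0 * ((x : ℝ) / q 1) := by rw [Fin.prod_univ_two]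
  have hPi0 : 0 < ∏ i, ((x : ℝ) / q i) := prod_pos fun i _ => div_pos hx0 (hq0 i)
  -- the estimate for a set and a size
  have key : ∀ r : Fin 2 → ℕ, ∀ S ⊆ QQ x, ∀ Y : ℝ, (S.card : ℝ) ≤ Y → x / Real.log x ^ (A + 3) ≤ Y →
      ∀ η : ℝ, 0 < η → η ≤ 1 → ((exceptional (dens q * ((loc S q r).card / Real.log x ^ 2))
        (η * dens q * (Y / Real.log x ^ 2)) x S q r).card : ℝ) ≤ C * l / (η ^ 2 * w) * ∏ i, ((x : ℝ) / q i) := by
    intro r S hS Y hSY hYx η hη0 hη1
    refine le_trans (Nat.cast_le.2 (exc_le (fun i => (hq i).1) hS η Y)) ?_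
    rw [hl]
    refine hD3 q hq w hw1 hwL hwq (cl x q r) S (F x) ?_ ?_ Y hSY hYx η hη0 hη1
    · intro i s hs
      obtain ⟨-, k1, k2, k3⟩ := QQ_mem (hS hs)
      fin_cases i
      · exact mem_Icc.2 ⟨by show 1 ≤ x + 1 - s; omega, by show x + 1 - s ≤ x; omega⟩
      · exact mem_Icc.2 ⟨(Nat.prime_nth_prime _).one_le, k3⟩
    · intro i s hs t ht e
      obtain ⟨-, k1, k2, k3⟩ := QQ_mem (hS (mem_coe.1 hs))
      obtain ⟨-, k4, k5, k6⟩ := QQ_mem (hS (mem_coe.1 ht))
      fin_cases i
      · have e' : x + 1 - s = x + 1 - t := e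
        omega
      · have e' : Nat.nth Nat.Prime (s + 2 - 1) = Nat.nth Nat.Prime (t + 2 - 1) := e
        have := nth_inj e'
        omega
  refine ⟨fun r S hS η hη0 hη1 => ?_, fun η hη0 hη1 => ?_⟩
  · have h7 := key r S hS (S.card + x / Real.log x ^ A)
      (by
        have : (0 : ℝ) ≤ x / Real.log x ^ A := by positivity
        linarith)
      (by
        have e1 : (0 : ℝ) ≤ S.card := Nat.cast_nonneg _
        have e2 : (x : ℝ) / Real.log x ^ (A + 3) ≤ x / Real.log x ^ A :=
          div_le_div_of_nonneg_left hx0.le (by positivity) (pow_le_pow_right₀ (by linarith) (by omega))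
        linarith) η hη0 hη1
    rw [← hPi, ← hl]
    refine h7.trans (mul_le_mul_of_nonneg_right ?_ hPi0.le)
    refine div_le_div_of_nonneg_right ?_ (by positivity)
    refine mul_le_mul_of_nonneg_right ?_ (by linarith)
    linarith
  · rw [← hPi, ← hl]
    by_cases hηw : η ^ 2 * w ≤ l
    · -- the trivial bound
      refine (exc_triv (fun i => ⟨(hq i).1, hqx i⟩) _ _ _).trans (mul_le_mul_of_nonneg_right ?_ hPi0.le)
      rw [le_div_iff₀ (by positivity)]
      nlinarith
    rw [not_le] at hηw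
    have hηL : 1 / Real.log x ≤ η := by
      rw [div_le_iff₀ hL0]
      have h8 : η ^ 2 * w ≤ η ^ 2 * Real.log x := by gcongr
      have : η ^ 2 * Real.log x ≤ η * Real.log x := by
        refine mul_le_mul_of_nonneg_right ?_ hL0.le
        nlinarith
      linarith
    have hYl : (x : ℝ) / Real.log x ^ (A + 3) ≤ (QQ x).card := by
      refine le_trans ?_ hlow
      refine div_le_div_of_nonneg_left hx0.le (by positivity) ?_
      calc 16 * Real.log x ^ 2 ≤ Real.log x * Real.log x ^ 2 := by gcongr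
        _ = Real.log x ^ 3 := by ring
        _ ≤ Real.log x ^ (A + 3) := pow_le_pow_right₀ (by linarith) (by omega)
    have h7 := key 0 (QQ x) (Subset.refl _) (QQ x).card le_rfl hYl (η / 2) (by linarith) (by linarith)
    have hd0 : 0 ≤ dens q := by
      unfold dens
      positivity
    have hsub : exceptional (dens q * ((QQ x).card / Real.log x ^ 2))
            (η * (dens q * ((QQ x).card / Real.log x ^ 2))) x (QQ x) q 0 ⊆
        exceptional (dens q * ((loc (QQ x) q 0).card / Real.log x ^ 2))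
          (η / 2 * dens q * ((QQ x).card / Real.log x ^ 2)) x (QQ x) q 0 := by
      intro g hg
      unfold exceptional at hg ⊢
      rw [mem_filter] at hg ⊢
      refine ⟨hg.1, hg.2.1, hg.2.2.1, ?_⟩
      have e3 := loc_zero q (fun i => ⟨(hq i).1, hqx i⟩)
      have e4 : ((loc (QQ x) q 0).card : ℝ) ≤ (QQ x).card := by
        have : loc (QQ x) q 0 ⊆ QQ x := by
          unfold loc
          exact filter_subset _ _
        exact_mod_cast card_le_card this
      have e5 : 4 * Real.log x ≤ η / 2 * (QQ x).card := by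
        have e7 : 4 * Real.log x ≤ (1 / Real.log x) / 2 * (x / (16 * Real.log x ^ 2)) := by
          have e8 : (1 / Real.log x) / 2 * (x / (16 * Real.log x ^ 2)) = x / (32 * Real.log x ^ 3) := by
            field_simp
            ring
          rw [e8, le_div_iff₀ (by positivity)]
          have e9 : 4 * Real.log x * (32 * Real.log x ^ 3) = 128 * Real.log x ^ 4 := by ring
          linarith
        refine e7.trans ?_
        gcongr
      have e6 : |dens q * ((loc (QQ x) q 0).card / Real.log x ^ 2) - dens q * ((QQ x).card / Real.log x ^ 2)| ≤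
          η / 2 * dens q * ((QQ x).card / Real.log x ^ 2) := by
        have e7 : dens q * ((loc (QQ x) q 0).card / Real.log x ^ 2) - dens q * ((QQ x).card / Real.log x ^ 2) =
            -(dens q * ((((QQ x).card : ℝ) - (loc (QQ x) q 0).card) / Real.log x ^ 2)) := by ring
        rw [e7, abs_neg, abs_of_nonneg (mul_nonneg hd0 (div_nonneg (by linarith) (by positivity)))]
        have e8 : η / 2 * dens q * ((QQ x).card / Real.log x ^ 2) =
            dens q * (η / 2 * (QQ x).card / Real.log x ^ 2) := by ring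
        rw [e8]
        refine mul_le_mul_of_nonneg_left ?_ hd0
        refine div_le_div_of_nonneg_right ?_ (by positivity)
        linarith
      have e7 := hg.2.2.2
      have e8 := abs_sub_le ((good (QQ x) g.1 g.2).card : ℝ) (dens q * ((loc (QQ x) q 0).card / Real.log x ^ 2))
        (dens q * ((QQ x).card / Real.log x ^ 2))
      have e9 : η * (dens q * ((QQ x).card / Real.log x ^ 2)) = η / 2 * dens q * ((QQ x).card / Real.log x ^ 2) +
          η / 2 * dens q * ((QQ x).card / Real.log x ^ 2) := by ring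
      linarith
    calc _ ≤ ((exceptional (dens q * ((loc (QQ x) q 0).card / Real.log x ^ 2))
          (η / 2 * dens q * ((QQ x).card / Real.log x ^ 2)) x (QQ x) q 0).card : ℝ) := by
          exact_mod_cast card_le_card hsub
      _ ≤ C * l / ((η / 2) ^ 2 * w) * ∏ i, ((x : ℝ) / q i) := h7
      _ ≤ 16 * C * l / (η ^ 2 * w) * ∏ i, ((x : ℝ) / q i) := by
          refine mul_le_mul_of_nonneg_right ?_ hPi0.le
          have e1 : C * l / ((η / 2) ^ 2 * w) = 4 * C * l / (η ^ 2 * w) := by
            field_simp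
            ring
          rw [e1]
          refine div_le_div_of_nonneg_right ?_ (by positivity)
          refine mul_le_mul_of_nonneg_right ?_ (by linarith)
          linarith

end Pool.Agent.Results.MP_0ec542_nt.EvensAndShiftsLargeModuli
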