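import Pool.Agent.H579.R.Dsp6R
import Pool.Agent.H579.R.Reg
import Pool.Graph.R_seed8.Y877.SxI
import Pool.Graph.R_seed8.R460.GH.Conv

/-!
# The exact Goldbach condition with an averaged condition on the index

Q1 asks, for every even number `M = 2 n > 4`, for a prime `r` such that `M - r` and `p_{r + 2} + 2` are both prime. Here
the Goldbach condition is kept exactly, for EACH `M`, and only the shift `2` is replaced by almost all multiples `h` of a
number `q`, which may be as large as `x ^ (2 / 3 - ρ)`, `x = p_{M + 2}` (then there are only `x ^ (1 / 3 + ρ)` such `h`), or by almost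
all `h` in an arbitrary residue class modulo `q`.

Let `gold M` be the set of the primes `r < M` for which `M - r` is prime.

(1) For every large `M`, EVERY set `V ⊆ {1, ..., M}`, every regular `q` divisible by the primes `≤ w` and every class
`a`, all but at most `C log log x / (η ^ 2 w) * x / q` of the `h ≤ x` in the class satisfy: the number of the `r ∈ V` with
`p_{r + 2} + h` prime is `q / φ(q) * #{r ∈ V : (p_{r + 2} + a, q) = 1} / log x` up to an error
`η * q / φ(q) * (#V + x / log ^ A x) / log x`.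

(2) If `#V ≥ x / log ^ (A + 5) x` then for all but as few multiples `h ≤ x` of `q` the number of the `r ∈ V` for which
`p_{r + 2} + h` is prime is `(1 + θ η) * q / φ(q) * #V / log x`, `|θ| ≤ 1`. Examples: `V = gold M`, by (3) for almost all even `M`;
and `V = {r prime : M - r has at most two prime factors}` for EVERY large even `M`, since this set has `≫ M / log ^ 2 M`
elements (Chen's theorem, not proved here).

(3) For every modulus `Q ≤ X ^ (2 / 3 - ρ)` and every class `b` with `(b, Q) ≤ log ^ T X`, all but at most `X / (Q log ^ A X)` of the even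
`M ≤ X` in the class satisfy `#gold M ≥ x / log ^ 5 x` and `|#gold M - S(M) M / log ^ 2 M| ≤ ε S(M) M / log ^ 2 M` with the singular
series `S(M)`.

The moduli `q` are regular: not divisible by a member of a set `D` (depending on `M`) of at most `log ^ c x` integers, the
RADICALS of which are larger than any given power of `log x`; there is NO condition on the `q` with a radical
`≤ log ^ B x`. Proof: `Pool.Agent.H579` (one shift, arbitrary sequences); (3) is a consequence of the library
theorem `R460.GH.class_asymp`.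
-/

set_option autoImplicit false

open Finset

namespace Pool.Agent.Results.MP_0ec542_nt.ExactGoldbachOneShift

/-- the radical of `d`: the product of the primes dividing `d` -/
def rad (d : ℕ) : ℕ := ∏ l ∈ d.primeFactors, l

/-- The `k`-th prime: `p 1 = 2`, `p 2 = 3`. -/
noncomputable def p (k : ℕ) : ℕ := Nat.nth Nat.Prime (k - 1)

/-- The primes `r ≤ M` for which `M - r` is prime. -/
def gold (M : ℕ) : Finset ℕ := (Ioc 0 M).filter (fun r => r.Prime ∧ (M - r).Prime)

open Classical in
/-- The `r ∈ V` for which `p_{r + 2} + h` is prime. -/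
noncomputable def good (V : Finset ℕ) (h : ℕ) : Finset ℕ := V.filter (fun r => (p (r + 2) + h).Prime)

open Classical in
/-- The `r ∈ V` for which `p_{r + 2} + a` is prime to `q`. -/
noncomputable def loc (V : Finset ℕ) (q a : ℕ) : Finset ℕ := V.filter (fun r => (p (r + 2) + a).Coprime q)

/-- `q / φ(q)` -/
noncomputable def dens (q : ℕ) : ℝ := (q : ℝ) / Nat.totient q

open Classical in
/-- The `h ∈ {1, ..., x}` with `h ≡ a (mod q)` for which the number of the `r ∈ V` with `p_{r + 2} + h` prime differs from `T` by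
more than `E`. -/
noncomputable def exceptional (T E : ℝ) (x : ℕ) (V : Finset ℕ) (q a : ℕ) : Finset ℕ :=
  (Icc 1 x).filter (fun h => h ≡ a [MOD q] ∧ E < |((good V h).card : ℝ) - T|)

/-- The twin prime constant `C₂ = ∏_{l > 2} (1 - 1 / (l - 1) ^ 2)`: the infimum of the decreasing partial products. -/
noncomputable def C₂ : ℝ := ⨅ z : ℕ, ∏ l ∈ (Icc 3 z).filter Nat.Prime, (1 - 1 / ((l : ℝ) - 1) ^ 2)

/-- The singular series `2 C₂ ∏_{l ∣ n, l > 2} (l - 1) / (l - 2)`. -/
noncomputable def sing (n : ℕ) : ℝ :=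
  2 * C₂ * ∏ l ∈ n.primeFactors.filter (fun l => 2 < l), ((l : ℝ) - 1) / ((l : ℝ) - 2)

open Classical in
/-- The even `M`, `0 < M ≤ X`, `M ≡ b (mod Q)`, for which `|#gold M - sing M * M / log ^ 2 M| ≤ ε * sing M * M / log ^ 2 M` or
`#gold M ≥ x / log ^ 5 x`, `x = p_{M + 2}`, is false. -/
noncomputable def badM (ε X : ℝ) (Q : ℕ) (b : ℤ) : Set ℕ :=
  {M : ℕ | 0 < M ∧ (M : ℝ) ≤ X ∧ 2 ∣ M ∧ (M : ℤ) ≡ b [ZMOD Q] ∧
    ¬ (|((gold M).card : ℝ) - sing M * M / Real.log M ^ 2| ≤ ε * (sing M * M / Real.log M ^ 2) ∧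
      (p (M + 2) : ℝ) / Real.log (p (M + 2)) ^ 5 ≤ (gold M).card)}

open Pool.Agent.H579.G

theorem nth_inj : Function.Injective (Nat.nth Nat.Prime) := Nat.nth_injective Nat.infinite_setOfPred_prime

/-- the sequence -/
noncomputable def F : Fin 1 → ℕ → ℕ := fun _ r => p (r + 2)

lemma den_eq (q : ℕ) : den (fun _ : Fin 1 => q) = dens q := by
  unfold den dens
  rw [Fin.prod_univ_one]

lemma gold_mem {M r : ℕ} (h : r ∈ gold M) : r.Prime ∧ 1 ≤ r ∧ r ≤ M := by
  unfold gold at h
  rw [mem_filter, mem_Ioc] at h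
  exact ⟨h.2.1, h.1.1, h.1.2⟩

lemma p_le {M r : ℕ} (h : r ≤ M) : p (r + 2) ≤ p (M + 2) := by
  unfold p
  exact Nat.nth_monotone Nat.infinite_setOfPred_prime (by omega)

/-- the exceptional numbers as exceptional shifts -/
lemma exc_le {x : ℕ} {q a : ℕ} {V : Finset ℕ} (η Y : ℝ) :
    (exceptional (dens q * ((loc V q a).card / Real.log x)) (η * dens q * (Y / Real.log x)) x V q a).card ≤
      (excN η Y x V F (fun _ => q) (fun _ => a)).card := by
  classical
  refine card_le_card_of_injOn (fun h => (fun _ => h : Fin 1 → ℕ)) (fun h hh => ?_) (fun h _ h' _ e => ?_)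
  · rw [mem_coe] at hh
    unfold exceptional at hh
    rw [mem_filter] at hh
    rw [mem_coe]
    unfold excN
    rw [mem_filter, Fintype.mem_piFinset]
    refine ⟨fun _ => hh.1, fun _ => hh.2.1, ?_⟩
    have f1 : prN V F (fun _ => h) = good V h := by
      unfold prN good
      exact filter_congr fun s _ => ⟨fun e => e 0, fun e _ => e⟩
    have f2 : cpN V F (fun _ => q) (fun _ => a) = loc V q a := by
      unfold cpN loc
      exact filter_congr fun s _ => ⟨fun e => e 0, fun e _ => e⟩
    rw [f1, f2, den_eq, pow_one]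
    exact hh.2.2
  · exact congrFun e 0

/-- the trivial bound -/
lemma exc_triv {x q a : ℕ} (hq : 1 ≤ q ∧ q ≤ x) (T E : ℝ) (V : Finset ℕ) :
    ((exceptional T E x V q a).card : ℝ) ≤ 2 * ((x : ℝ) / q) := by
  classical
  have h1 := box_nat (k := 1) (q := fun _ => q) (fun _ => hq) (a := fun _ => a)
    (T := (exceptional T E x V q a).image (fun h => (fun _ => h : Fin 1 → ℕ))) (by
      intro h hh i
      obtain ⟨g, hg, rfl⟩ := mem_image.1 hh
      unfold exceptional at hg
      rw [mem_filter, mem_Icc] at hg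
      exact ⟨hg.1.1, hg.1.2, hg.2.1⟩)
  rw [card_image_of_injective _ (fun h h' e => congrFun e 0), Fin.prod_univ_one, pow_one] at h1
  exact h1

/-- few elements of `V` are not prime to the modulus -/
lemma loc_zero {q x : ℕ} (V : Finset ℕ) (hq : 1 ≤ q ∧ q ≤ x) :
    (V.card : ℝ) - 2 * Real.log x ≤ (loc V q 0).card := by
  classical
  have h2 : ((V \ (loc V q 0)).card) ≤ q.primeFactors.card := by
    refine card_le_card_of_injOn (fun s => p (s + 2)) (fun s hs => ?_) (fun s _ t _ e => ?_)
    · rw [mem_coe, mem_sdiff] at hs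
      obtain ⟨hs1, hs2⟩ := hs
      unfold loc at hs2
      rw [mem_filter, not_and] at hs2
      have h3 := hs2 hs1
      rw [mem_coe, Nat.mem_primeFactors]
      refine ⟨Nat.prime_nth_prime _, ?_, by have := hq.1; omega⟩
      by_contra h5
      refine h3 ?_
      rw [add_zero]
      exact (Nat.Prime.coprime_iff_not_dvd (Nat.prime_nth_prime _)).2 h5
    · have := nth_inj e
      omega
  have hom : (q.primeFactors.card : ℝ) ≤ 2 * Real.log x := by
    refine (omega_le hq.1).trans ?_
    have : Real.log q ≤ Real.log x :=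
      Real.log_le_log (by exact_mod_cast hq.1) (by exact_mod_cast hq.2)
    linarith
  have h4 : V.card = (loc V q 0).card + (V \ (loc V q 0)).card := by
    have h5 : loc V q 0 ⊆ V := by
      unfold loc
      exact filter_subset _ _
    have := card_sdiff_add_card_eq_card h5
    omega
  have h5 : (V.card : ℝ) = (loc V q 0).card + (V \ (loc V q 0)).card := by exact_mod_cast h4
  have h6 : ((V \ (loc V q 0)).card : ℝ) ≤ q.primeFactors.card := by exact_mod_cast h2
  linarith

lemma sing_eq (n : ℕ) : sing n = Pool.Agent.H560R3.GB.sing n := rfl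

/-- the number of Goldbach representations -/
theorem part3 (ε : ℝ) (hε : 0 < ε) (ρ : ℝ) (hρ : 0 < ρ) (A T : ℕ) :
    ∃ X₀ : ℝ, ∀ X : ℝ, X₀ ≤ X → ∀ Q : ℕ, 1 ≤ Q → (Q : ℝ) ≤ X ^ (2 / 3 - ρ) → ∀ b : ℤ,
      (Int.gcd b Q : ℝ) ≤ Real.log X ^ T →
        (badM ε X Q b).Finite ∧ ((badM ε X Q b).ncard : ℝ) ≤ X / (Q * Real.log X ^ A) := by
  obtain ⟨n1, h1⟩ := Pool.Agent.Y877.SX.nth_le_log
  have hε2 : 0 < min ε (1 / 2) := lt_min hε (by norm_num)
  obtain ⟨X₀, h2⟩ := Pool.Agent.R460.GH.class_asymp
    (fun M => |((gold M).card : ℝ) - sing M * M / Real.log M ^ 2| ≤ ε * (sing M * M / Real.log M ^ 2) ∧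
      (p (M + 2) : ℝ) / Real.log (p (M + 2)) ^ 5 ≤ (gold M).card) (min ε (1 / 2)) hε2 1
    (by
      refine ⟨n1 + 8, fun M hM h2 hW => ?_⟩
      have hM0 : (0 : ℝ) < M := by exact_mod_cast (by omega : 0 < M)
      have hlM : 2 ≤ Real.log M := by
        rw [Real.le_log_iff_exp_le hM0]
        have e1 : Real.exp 2 = Real.exp 1 * Real.exp 1 := by rw [← Real.exp_add]; norm_num
        have e2 := Real.exp_one_lt_d9
        have e3 : (8 : ℝ) ≤ M := by exact_mod_cast (by omega : 8 ≤ M)
        have e4 := Real.exp_pos 1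
        rw [e1]
        nlinarith
      have e1 := hW 0 M (by omega) le_rfl (by
        rw [Nat.cast_zero, sub_zero, pow_one]
        exact div_le_self hM0.le (by linarith))
      have e2 : (Pool.Agent.W93.PG.cnt M 0 M) = (gold M).card := rfl
      rw [e2, Nat.cast_zero, sub_zero] at e1
      have hs : 1 ≤ sing M := Pool.Agent.R460.GS.one_le_sing M
      have e3 : 0 ≤ sing M * M / Real.log M ^ 2 := by positivity
      refine ⟨e1.trans (mul_le_mul_of_nonneg_right (min_le_left _ _) e3), ?_⟩
      have e4 : |((gold M).card : ℝ) - sing M * M / Real.log M ^ 2| ≤ 1 / 2 * (sing M * M / Real.log M ^ 2) :=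
        e1.trans (mul_le_mul_of_nonneg_right (min_le_right _ _) e3)
      have e5 := (abs_le.1 e4).1
      have e6 : (M : ℝ) / Real.log M ^ 2 ≤ sing M * M / Real.log M ^ 2 := by
        refine div_le_div_of_nonneg_right ?_ (by positivity)
        nlinarith
      have e7 : (M : ℝ) / Real.log M ^ 2 / 2 ≤ (gold M).card := by linarith
      have hx1 : (p (M + 2) : ℝ) ≤ M * Real.log M ^ 2 := h1 M (by omega) (M + 1) (by omega)
      have hxM : M + 1 ≤ p (M + 2) := by
        have := Nat.add_two_le_nth_prime (M + 1)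
        show M + 1 ≤ Nat.nth Nat.Prime (M + 1)
        omega
      have hxM' : (M : ℝ) ≤ p (M + 2) := by exact_mod_cast (by omega : M ≤ p (M + 2))
      have hll : Real.log M ≤ Real.log (p (M + 2)) := Real.log_le_log hM0 hxM'
      refine le_trans ?_ e7
      have hL0 : 0 < Real.log M := by linarith
      have hL1 : 0 < Real.log (p (M + 2)) := by linarith
      rw [div_div, div_le_div_iff₀ (by positivity) (by positivity)]
      calc (p (M + 2) : ℝ) * (Real.log M ^ 2 * 2) ≤ M * Real.log M ^ 2 * (Real.log M ^ 2 * 2) := by gcongr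
        _ = M * (Real.log M ^ 4 * 2) := by ring
        _ ≤ M * (Real.log M ^ 4 * Real.log M) := by gcongr
        _ = M * Real.log M ^ 5 := by ring
        _ ≤ M * Real.log (p (M + 2)) ^ 5 := by gcongr) ρ hρ A T
  exact ⟨X₀, h2⟩

/-- **The exact Goldbach condition for each `M`; almost all shifts in the classes of large moduli.** -/
theorem result (A : ℕ) : (∃ C : ℝ, ∀ ρ : ℝ, 0 < ρ → ∃ c : ℕ, ∀ B : ℕ, ∃ M₀ : ℕ, ∀ M : ℕ, M₀ ≤ M →
    ∀ x : ℕ, x = p (M + 2) →
    ∃ D : Finset ℕ, (D.card : ℝ) ≤ Real.log x ^ c ∧ (∀ d ∈ D, Real.log x ^ B < (rad d : ℝ)) ∧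
      ∀ q : ℕ, 1 ≤ q → (q : ℝ) ≤ (x : ℝ) ^ (2 / 3 - ρ) → ((rad q : ℝ) ≤ Real.log x ^ B ∨ ∀ d ∈ D, ¬ d ∣ q) →
      ∀ w : ℕ, 1 ≤ w → (w : ℝ) ≤ Real.log x → (∀ l : ℕ, l.Prime → l ≤ w → l ∣ q) →
      -- (1) arbitrary sets, arbitrary classes
      (∀ a : ℕ, ∀ V ⊆ Icc 1 M, ∀ η : ℝ, 0 < η → η ≤ 1 →
        ((exceptional (dens q * ((loc V q a).card / Real.log x))
            (η * dens q * ((V.card + x / Real.log x ^ A) / Real.log x)) x V q a).card : ℝ) ≤
          C * Real.log (Real.log x) / (η ^ 2 * w) * ((x : ℝ) / q)) ∧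
      -- (2) not too small sets, multiples of the modulus
      (∀ V ⊆ Icc 1 M, (x : ℝ) / Real.log x ^ (A + 5) ≤ V.card → ∀ η : ℝ, 0 < η → η ≤ 1 →
        ((exceptional (dens q * (V.card / Real.log x))
            (η * (dens q * (V.card / Real.log x))) x V q 0).card : ℝ) ≤
          C * Real.log (Real.log x) / (η ^ 2 * w) * ((x : ℝ) / q))) ∧
    -- (3) the assumption of (2) and the asymptotic formula for `#gold M`
    ∀ ε : ℝ, 0 < ε → ∀ ρ : ℝ, 0 < ρ → ∀ T : ℕ, ∃ X₀ : ℝ, ∀ X : ℝ, X₀ ≤ X → ∀ Q : ℕ, 1 ≤ Q →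
      (Q : ℝ) ≤ X ^ (2 / 3 - ρ) → ∀ b : ℤ, (Int.gcd b Q : ℝ) ≤ Real.log X ^ T →
        (badM ε X Q b).Finite ∧ ((badM ε X Q b).ncard : ℝ) ≤ X / (Q * Real.log X ^ A) := by
  classical
  refine ⟨?_, fun ε hε ρ hρ T => part3 ε hε ρ hρ A T⟩
  obtain ⟨C, hC, h1⟩ := Pool.Agent.H579.R.sparse_natR 1 (A + 5) le_rfl
  refine ⟨16 * C, fun ρ hρ => ?_⟩
  obtain ⟨c, h2⟩ := h1 ρ hρ
  refine ⟨c, fun B => ?_⟩
  obtain ⟨n1, h3⟩ := h2 B
  obtain ⟨n3, h5⟩ := Filter.eventually_atTop.1 (Pool.Agent.Y614.GJ.Core.ev_log 1 (s := 1) (by norm_num) (16 : ℝ))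
  obtain ⟨n4, h6⟩ := Pool.Agent.H373R2.T7.ev_log' (A + 7) 4
  refine ⟨n1 + n3 + n4 + 3, fun M hM x hxdef => ?_⟩
  have hxM : M + 1 ≤ x := by
    rw [hxdef]
    have := Nat.add_two_le_nth_prime (M + 1)
    show M + 1 ≤ Nat.nth Nat.Prime (M + 1)
    omega
  have hL16 : 16 ≤ Real.log x := (h5 x (by omega)).1
  have hx0 : (0 : ℝ) < x := by exact_mod_cast (by omega : 0 < x)
  have hx1 : (1 : ℝ) ≤ x := by exact_mod_cast (by omega : 1 ≤ x)
  have hL0 : 0 < Real.log x := by linarith
  have hpow : 4 * Real.log x ^ (A + 7) ≤ x := by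
    have := h6 x (by omega)
    refine le_trans ?_ (this.trans ?_)
    · exact le_rfl
    · rw [Real.sqrt_le_left (by linarith)]
      nlinarith
  obtain ⟨D, hD1, hD2, hD3⟩ := h3 x (by omega)
  obtain ⟨l, hl⟩ : ∃ l, l = Real.log (Real.log x) := ⟨_, rfl⟩
  have hl1 : 1 ≤ l := by
    rw [hl]
    have h7 : Real.exp 1 ≤ Real.log x := by
      have := Real.exp_one_lt_d9
      linarith
    have := Real.log_le_log (Real.exp_pos 1) h7
    rwa [Real.log_exp] at this
  refine ⟨D, hD1, hD2, fun q hq1 hq2 hq3 w hw1 hwL hwq => ?_⟩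
  have hqD := Pool.Agent.H579.R.reg_of_rad hq1 hD2 hq3
  have hw0 : (0 : ℝ) < w := by exact_mod_cast hw1
  have hq0 : (0 : ℝ) < q := by exact_mod_cast hq1
  have hqx : q ≤ x := by
    have e1 : (q : ℝ) ≤ x := by
      refine hq2.trans ?_
      calc (x : ℝ) ^ (2 / 3 - ρ) ≤ (x : ℝ) ^ (1 : ℝ) := Real.rpow_le_rpow_of_exponent_le hx1 (by linarith)
        _ = x := Real.rpow_one _
    exact_mod_cast e1
  have hxq : 0 < (x : ℝ) / q := div_pos hx0 hq0
  -- the estimate for a set and a size
  have key : ∀ a : ℕ, ∀ V ⊆ Icc 1 M, ∀ Y : ℝ, (V.card : ℝ) ≤ Y → x / Real.log x ^ (A + 5) ≤ Y →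
      ∀ η : ℝ, 0 < η → η ≤ 1 → ((exceptional (dens q * ((loc V q a).card / Real.log x))
        (η * dens q * (Y / Real.log x)) x V q a).card : ℝ) ≤ C * l / (η ^ 2 * w) * ((x : ℝ) / q) := by
    intro a V hV Y hVY hYx η hη0 hη1
    refine le_trans (Nat.cast_le.2 (exc_le η Y)) ?_
    rw [hl]
    have h8 := hD3 (fun _ => q) (fun _ => ⟨hq1, hq2, hqD⟩) w hw1 hwL (fun l' h1' h2' _ => hwq l' h1' h2') (fun _ => a) V F
      (fun _ r hr => mem_Icc.2 ⟨(Nat.prime_nth_prime _).one_le, by
        rw [hxdef]
        exact p_le (mem_Icc.1 (hV hr)).2⟩)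
      (fun _ r hr t ht e => by
        have e' : Nat.nth Nat.Prime (r + 2 - 1) = Nat.nth Nat.Prime (t + 2 - 1) := e
        have := nth_inj e'
        omega) Y hVY hYx η hη0 hη1
    rw [Fin.prod_univ_one] at h8
    exact h8
  refine ⟨fun a V hV η hη0 hη1 => ?_, fun V hV hgold η hη0 hη1 => ?_⟩
  · have h7 := key a V hV (V.card + x / Real.log x ^ A)
      (by
        have : (0 : ℝ) ≤ x / Real.log x ^ A := by positivity
        linarith)
      (by
        have e1 : (0 : ℝ) ≤ V.card := Nat.cast_nonneg _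
        have e2 : (x : ℝ) / Real.log x ^ (A + 5) ≤ x / Real.log x ^ A :=
          div_le_div_of_nonneg_left hx0.le (by positivity) (pow_le_pow_right₀ (by linarith) (by omega))
        linarith) η hη0 hη1
    rw [← hl]
    refine h7.trans (mul_le_mul_of_nonneg_right ?_ hxq.le)
    refine div_le_div_of_nonneg_right ?_ (by positivity)
    refine mul_le_mul_of_nonneg_right ?_ (by linarith)
    linarith
  · rw [← hl]
    by_cases hηw : η ^ 2 * w ≤ l
    · -- the trivial bound
      refine (exc_triv ⟨hq1, hqx⟩ _ _ _).trans (mul_le_mul_of_nonneg_right ?_ hxq.le)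
      rw [le_div_iff₀ (by positivity)]
      nlinarith
    rw [not_le] at hηw
    have hηL : 1 / Real.log x ≤ η := by
      rw [div_le_iff₀ hL0]
      have h8 : η ^ 2 * w ≤ η ^ 2 * Real.log x := by gcongr
      have : η ^ 2 * Real.log x ≤ η * Real.log x := by
        refine mul_le_mul_of_nonneg_right ?_ hL0.le
        nlinarith
      linarith
    have h7 := key 0 V hV V.card le_rfl hgold (η / 2) (by linarith) (by linarith)
    have hd0 : 0 ≤ dens q := by
      unfold dens
      positivity
    have hsub : exceptional (dens q * (V.card / Real.log x))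
            (η * (dens q * (V.card / Real.log x))) x V q 0 ⊆
        exceptional (dens q * ((loc V q 0).card / Real.log x))
          (η / 2 * dens q * (V.card / Real.log x)) x V q 0 := by
      intro g hg
      unfold exceptional at hg ⊢
      rw [mem_filter] at hg ⊢
      refine ⟨hg.1, hg.2.1, ?_⟩
      have e3 := loc_zero V ⟨hq1, hqx⟩
      have e4 : ((loc V q 0).card : ℝ) ≤ V.card := by
        have : loc V q 0 ⊆ V := by
          unfold loc
          exact filter_subset _ _
        exact_mod_cast card_le_card this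
      have e5 : 2 * Real.log x ≤ η / 2 * V.card := by
        have e7 : 2 * Real.log x ≤ (1 / Real.log x) / 2 * (x / Real.log x ^ (A + 5)) := by
          have e10 : Real.log x ^ (A + 6) = Real.log x ^ (A + 5) * Real.log x := pow_succ _ _
          have e8 : (1 / Real.log x) / 2 * (x / Real.log x ^ (A + 5)) = x / (2 * Real.log x ^ (A + 6)) := by
            rw [e10]
            field_simp
          rw [e8, le_div_iff₀ (by positivity)]
          have e9 : 2 * Real.log x * (2 * Real.log x ^ (A + 6)) = 4 * Real.log x ^ (A + 7) := by ring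
          linarith
        refine e7.trans ?_
        gcongr
      have e6 : |dens q * ((loc V q 0).card / Real.log x) - dens q * (V.card / Real.log x)| ≤
          η / 2 * dens q * (V.card / Real.log x) := by
        have e7 : dens q * ((loc V q 0).card / Real.log x) - dens q * (V.card / Real.log x) =
            -(dens q * (((V.card : ℝ) - (loc V q 0).card) / Real.log x)) := by ring
        rw [e7, abs_neg, abs_of_nonneg (mul_nonneg hd0 (div_nonneg (by linarith) (by positivity)))]
        have e8 : η / 2 * dens q * (V.card / Real.log x) =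
            dens q * (η / 2 * V.card / Real.log x) := by ring
        rw [e8]
        refine mul_le_mul_of_nonneg_left ?_ hd0
        refine div_le_div_of_nonneg_right ?_ (by positivity)
        linarith
      have e7 := hg.2.2
      have e8 := abs_sub_le ((good V g).card : ℝ) (dens q * ((loc V q 0).card / Real.log x))
        (dens q * (V.card / Real.log x))
      have e9 : η * (dens q * (V.card / Real.log x)) = η / 2 * dens q * (V.card / Real.log x) +
          η / 2 * dens q * (V.card / Real.log x) := by ring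
      linarith
    calc _ ≤ ((exceptional (dens q * ((loc V q 0).card / Real.log x))
          (η / 2 * dens q * (V.card / Real.log x)) x V q 0).card : ℝ) := by
          exact_mod_cast card_le_card hsub
      _ ≤ C * l / ((η / 2) ^ 2 * w) * ((x : ℝ) / q) := h7
      _ ≤ 16 * C * l / (η ^ 2 * w) * ((x : ℝ) / q) := by
          refine mul_le_mul_of_nonneg_right ?_ hxq.le
          have e1 : C * l / ((η / 2) ^ 2 * w) = 4 * C * l / (η ^ 2 * w) := by
            field_simp
            ring
          rw [e1]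
          refine div_le_div_of_nonneg_right ?_ (by positivity)
          refine mul_le_mul_of_nonneg_right ?_ (by linarith)
          linarith

end Pool.Agent.Results.MP_0ec542_nt.ExactGoldbachOneShift
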