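import Pool.Agent.H559.IX.Pages
import Pool.Agent.H559.IX.Nth

set_option autoImplicit false

/-!
# Goldbach representations with a twin-prime condition on the index, in the random sieve model

For every prime `q` a residue class `a q` modulo `q` is drawn uniformly and independently. The random primes are the
integers `v ≥ 3` which are, for all primes `q ≤ z v`, not in the class `0` modulo `q` if `q ≤ (log v) ^ c`, and not in the
class `a q` modulo `q` if `q > (log v) ^ c`. This is the model of Banks, Ford and Tao (*Large prime gaps and
probabilistic models*) in which the small primes sieve out the class `0` as they do for the true primes. The sieving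
limit `z` is any nondecreasing function for which `∏_{q ≤ z v} (1 - 1 / q)` is asymptotic to `1 / log v`; the choice `zBFT`
of Banks, Ford and Tao is one of them. The exponent `c` is any number larger than `1`. `r m` is the `m`-th random prime.

The theorem: there is a constant `C` such that almost surely, for every large `n` there is a random prime `q` such that `2n - q` is a
random prime, at most `(log n) ^ C`, and `r (q + 2) + 2` is a random prime.

The condition on an index depends on the number of all random primes below. The proof avoids the distribution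
of this number: it shows, for all `x` at once, that in every window `(x, x + (log x) ^ A]` the random primes realize every
admissible combination of a local pattern and a relative index, with an exceptional probability which is summable over
`x` and over all sets of indices under consideration. This uses that the survivors of the large primes in a window are
exchangeable given the survivors of the small primes and the random primes in the auxiliary set (here a window of
indices), and local lower bounds for hypergeometric probabilities.
-/

open MeasureTheory ProbabilityTheory Filter Topology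

namespace Pool.Agent.Results.MP_0ec542_nt.GoldbachIndexRandomSieve

/-- `V m = ∏ (1 - 1 / q)` over the primes `q ≤ m` -/
noncomputable def V (m : ℕ) : ℝ := ∏ q ∈ (Finset.range (m + 1)).filter Nat.Prime, (1 - 1 / (q : ℝ))

/-- the classes `a q` are independent, and `a q` is uniform on `0, …, q - 1` for every prime `q` -/
structure Model {Ω : Type} [MeasurableSpace Ω] (P : Measure Ω) (a : ℕ → Ω → ℕ) : Prop where
  measurable : ∀ q, Measurable (a q)
  independent : iIndepFun a P
  uniform : ∀ q, q.Prime → ∀ r < q, P.real {ω | a q ω = r} = 1 / q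

/-- the sieving limit of Banks, Ford and Tao: the largest `m` with `∏_{q ≤ m} (1 - 1 / q)⁻¹ ≤ log n` -/
noncomputable def zBFT (n : ℕ) : ℕ := sSup {m : ℕ | (V m)⁻¹ ≤ Real.log n}

/-- the admissible sieving limits: the density of the random primes near `v` is asymptotic to `1 / log v` -/
def Limit (z : ℕ → ℕ) : Prop := Monotone z ∧ Tendsto (fun v => V (z v) * Real.log v) atTop (𝓝 1)

open Classical in
/-- the set of the random primes of a sample -/
def R {Ω : Type} (z : ℕ → ℕ) (c : ℝ) (a : ℕ → Ω → ℕ) (ω : Ω) : Set ℕ :=
  {v | 3 ≤ v ∧ ∀ q ≤ z v, q.Prime → v % q ≠ if (q : ℝ) ≤ Real.log v ^ c then 0 else a q ω}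

/-- the `m`-th element of `A` in increasing order, `m ≥ 1` -/
noncomputable def nthEl (A : Set ℕ) (m : ℕ) : ℕ := Nat.nth (fun u => u ∈ A) (m - 1)

theorem result :
    (∃ (Ω : Type) (_ : MeasurableSpace Ω) (P : Measure Ω) (a : ℕ → Ω → ℕ), Model P a) ∧ Limit zBFT ∧
    ∀ c : ℝ, 1 < c → ∃ C : ℕ, ∀ z : ℕ → ℕ, Limit z →
      ∀ (Ω : Type) [MeasurableSpace Ω] (P : Measure Ω) (a : ℕ → Ω → ℕ), Model P a →
        ∀ᵐ ω ∂P, ∀ᶠ n : ℕ in atTop, ∃ q ∈ R z c a ω, q < 2 * n ∧ 2 * n - q ∈ R z c a ω ∧
          ((2 * n - q : ℕ) : ℝ) ≤ Real.log n ^ C ∧
          nthEl (R z c a ω) (q + 2) ∈ R z c a ω ∧ nthEl (R z c a ω) (q + 2) + 2 ∈ R z c a ω := by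
  classical
  refine ⟨?_, ⟨Pool.Agent.T2H32.BF.z0_mono, Pool.Agent.T2H32.BF.z0_lim⟩, ?_⟩
  · obtain ⟨Ω, i, P, a, h⟩ := Pool.Agent.T2H32.BF.exists_model
    exact ⟨Ω, i, P, a, h.measurable, h.independent, h.uniform⟩
  · intro c hc
    obtain ⟨C, hC⟩ := Pool.Agent.H559.IX.page_0ec c hc
    refine ⟨C, fun z hz Ω _ P a hmod => ?_⟩
    have h : Pool.Agent.T2H32.BF.Model P a := ⟨hmod.measurable, hmod.independent, hmod.uniform⟩
    filter_upwards [hC z hz Ω P a h] with ω hω
    have e : Pool.Agent.H559.IX.R0 z c (fun q => a q ω) = R z c a ω := rfl
    have h0 : 0 ∉ R z c a ω := Pool.Agent.H559.IX.zero_notMem z c (fun q => a q ω)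
    rw [e] at hω
    filter_upwards [hω] with n hn
    obtain ⟨q, q', v, h1, h2, h3, h4, h5, h6, h7⟩ := hn
    obtain ⟨g1, g2⟩ := Pool.Agent.H559.IX.nth_cn _ h0 v _ h5 h7
    have hq' : 3 ≤ q' := h2.1
    have e1 : 2 * n - q = q' := by omega
    refine ⟨q, h1, by omega, ?_, ?_, ?_, ?_⟩
    · rw [e1]
      exact h2
    · rw [e1]
      exact h4
    · unfold nthEl
      rw [g2]
      exact h5
    · unfold nthEl
      rw [g2]
      exact h6

end Pool.Agent.Results.MP_0ec542_nt.GoldbachIndexRandomSieve
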