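import Pool.Agent.H531.IX.Fin6
import Pool.Agent.H531.IX.CNT
import Pool.Agent.H531.IX.CHN
import Pool.Agent.H531.IX.TGU
import Pool.Agent.H531.IX.REGQ
import Pool.Agent.H531.IX.AEQ
import Pool.Agent.H531.IX.QAU
import Pool.Agent.H531.IX.QAL
import Pool.Agent.H531.IX.NGQ

set_option autoImplicit false

/-!
# Goldbach representations with a twin prime condition on the index in the random sieve model: the number of representations

For every prime `q` a residue class `a q` modulo `q` is drawn uniformly and independently. The random primes are the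
integers `v ≥ 3` which are, for all primes `q ≤ zBFT v`, not in the class `0` modulo `q` if `q ≤ (log v) ^ c`, and not in the
class `a q` modulo `q` if `q > (log v) ^ c`. This is the model of Banks, Ford and Tao (*Large prime gaps and
probabilistic models*) in which the small primes sieve out the class `0` as they do for the true primes, `c > 1` is
arbitrary. `nthEl A m` is the `m`-th element of `A`.

The theorem: almost surely the number of the random primes `q` such that `2n - q` and `r_(q+2) + 2` are random primes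
(`r_m` the `m`-th random prime) is asymptotic to `2 C₂ 𝔖(2n) · 2n / (log n) ^ 3` for `n → ∞` (through all integers), `𝔖` the
singular series of Goldbach's problem, `C₂` the twin prime constant. This is what one expects for the true primes.

The proof uses the index law `Pool.Agent.H531.IX.law`: for the random primes `p` in `(X, X2]`, `X2 ≤ 2X`, with `p + 2` a random
prime, the proportion of those with the index in a set `T` that is determined by the classes modulo the primes up to the
sieving limit of `X` is the density of `T` in short intervals, up to `1 ± ε` and `X ^ 0.99`, with an exceptional probability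
`exp (-X ^ 0.4)`. Here `T` is the set of the `q + 2` with `q` and `2n - q` random primes.
-/

open MeasureTheory ProbabilityTheory Filter Topology

namespace Pool.Agent.Results.MP_0ec542_nt.RandomSieveAsymptotics

/-- `V m = ∏ (1 - 1 / q)` over the primes `q ≤ m` -/
noncomputable def V (m : ℕ) : ℝ := ∏ q ∈ (Finset.range (m + 1)).filter Nat.Prime, (1 - 1 / (q : ℝ))

/-- the classes `a q` are independent, and `a q` is uniform on `0, …, q - 1` for every prime `q` -/
structure Model {Ω : Type} [MeasurableSpace Ω] (P : Measure Ω) (a : ℕ → Ω → ℕ) : Prop where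
  measurable : ∀ q, Measurable (a q)
  independent : iIndepFun a P
  uniform : ∀ q, q.Prime → ∀ r < q, P.real {ω | a q ω = r} = 1 / q

/-- the sieving limit of Banks, Ford and Tao: the largest `m` with `∏_{q ≤ m} (1 - 1 / q)⁻¹ ≤ log n` -/
noncomputable def zBFT (n : ℕ) : ℕ := sSup {m : ℕ | (V m)⁻¹ ≤ Real.log n}

open Classical in
/-- the set of the random primes of a sample -/
def R {Ω : Type} (c : ℝ) (a : ℕ → Ω → ℕ) (ω : Ω) : Set ℕ :=
  {v | 3 ≤ v ∧ ∀ q ≤ zBFT v, q.Prime → v % q ≠ if (q : ℝ) ≤ Real.log v ^ c then 0 else a q ω}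

/-- the `m`-th element of `A` in increasing order, `m ≥ 1` -/
noncomputable def nthEl (A : Set ℕ) (m : ℕ) : ℕ := Nat.nth (fun u => u ∈ A) (m - 1)

/-- the number of the `q ∈ A` such that `2 n - q` and `r + 2` are in `A`, `r` the `(q + 2)`-th element of `A` -/
noncomputable def number (A : Set ℕ) (n : ℕ) : ℕ :=
  {q : ℕ | q ∈ A ∧ q < 2 * n ∧ 2 * n - q ∈ A ∧ nthEl A (q + 2) + 2 ∈ A}.ncard

/-- the partial products of the twin prime constant -/
noncomputable def partialTwin (x : ℕ) : ℝ :=
  ∏ p ∈ (Finset.range (x + 1)).filter (fun p => p.Prime ∧ p ≠ 2), (1 - 1 / ((p : ℝ) - 1) ^ 2)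

/-- the singular series of Goldbach's problem for the even number `N` -/
noncomputable def series (C₂ : ℝ) (N : ℕ) : ℝ :=
  2 * C₂ * ∏ p ∈ N.primeFactors.filter (fun p => p ≠ 2), ((p : ℝ) - 1) / ((p : ℝ) - 2)

theorem result :
    (∃ (Ω : Type) (_ : MeasurableSpace Ω) (P : Measure Ω) (a : ℕ → Ω → ℕ), Model P a) ∧
    ∃ C₂ : ℝ, 1 / 2 ≤ C₂ ∧ Tendsto partialTwin atTop (𝓝 C₂) ∧ ∀ c : ℝ, 1 < c →
      ∀ (Ω : Type) [MeasurableSpace Ω] (P : Measure Ω) (a : ℕ → Ω → ℕ), Model P a →
        ∀ᵐ ω ∂P, (R c a ω).Infinite ∧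
          Tendsto (fun n : ℕ => (number (R c a ω) n : ℝ) * Real.log n ^ 3 /
            (2 * C₂ * series C₂ (2 * n) * (2 * n))) atTop (𝓝 1) := by
  classical
  obtain ⟨κ, hκ, hlim⟩ := Pool.Agent.T2H32.GB.C2_lim id monotone_id
  refine ⟨?_, κ, hκ, hlim, ?_⟩
  · obtain ⟨Ω, i, P, a, h⟩ := Pool.Agent.T2H32.BF.exists_model
    exact ⟨Ω, i, P, a, h.measurable, h.independent, h.uniform⟩
  · intro c hc Ω _ P a hmod
    have h : Pool.Agent.T2H32.BF.Model P a := ⟨hmod.measurable, hmod.independent, hmod.uniform⟩
    have e : ∀ ω, Pool.Agent.H531.IX.RS Pool.Agent.T2H32.BF.z0 (Pool.Agent.H559.HY.WW c) (fun q => a q ω) = R c a ω := by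
      intro ω
      ext v
      refine and_congr_right fun hv => forall_congr' fun q => forall_congr' fun hq => forall_congr' fun hp => ?_
      have h1 : q ≤ Pool.Agent.H559.HY.WW c v ↔ (q : ℝ) ≤ Real.log v ^ c := by
        unfold Pool.Agent.H559.HY.WW
        exact Nat.le_floor_iff (Real.rpow_nonneg (Real.log_natCast_nonneg v) c)
      by_cases h2 : q ≤ Pool.Agent.H559.HY.WW c v
      · rw [if_pos h2, if_pos (h1.1 h2)]
      · rw [if_neg h2, if_neg (fun h3 => h2 (h1.2 h3))]
    filter_upwards [Pool.Agent.H531.IX.fin6 Pool.Agent.H531.IX.cnt Pool.Agent.H531.IX.chn Pool.Agent.H531.IX.tgu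
      Pool.Agent.H531.IX.regq Pool.Agent.H531.IX.aeq Pool.Agent.H531.IX.qau Pool.Agent.H531.IX.qal
      Pool.Agent.H531.IX.ngq c κ hc (by linarith) hlim Ω P a h] with ω hω
    rw [e] at hω
    exact hω

end Pool.Agent.Results.MP_0ec542_nt.RandomSieveAsymptotics
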